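import Pool.Agent.Lib.MP_7ebef4_an.Own

set_option autoImplicit false

open MeasureTheory Set Filter Topology
open scoped Pointwise NNReal

namespace Pool.Agent.Results.MP_7ebef4_an.UniformFactorization

/-- The rotation-invariant probability measure on the unit sphere of `ℂ^n`: the surface measure
of Mathlib, divided by its total mass. -/
noncomputable def sigma (n : ℕ) : Measure (Metric.sphere (0 : EuclideanSpace ℂ (Fin n)) 1) :=
  ((volume : Measure (EuclideanSpace ℂ (Fin n))).toSphere univ)⁻¹ •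
    (volume : Measure (EuclideanSpace ℂ (Fin n))).toSphere

/-- `‖f‖_p`, where `‖f‖_p ^ p` is the supremum over `0 < r < 1` of the integral of
`|f (r ζ)| ^ p` over the unit sphere. -/
noncomputable def hardyNorm (n : ℕ) (p : ℝ) (f : EuclideanSpace ℂ (Fin n) → ℂ) : ENNReal :=
  (⨆ r ∈ Ioo (0 : ℝ) 1, ∫⁻ ζ : Metric.sphere (0 : EuclideanSpace ℂ (Fin n)) 1,
    ‖f (r • (ζ : EuclideanSpace ℂ (Fin n)))‖ₑ ^ p ∂(sigma n)) ^ (1 / p)

/-- `f` is holomorphic in the open unit ball of `ℂ^n` and `‖f‖_p` is finite. -/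
def InHardy (n : ℕ) (p : ℝ) (f : EuclideanSpace ℂ (Fin n) → ℂ) : Prop :=
  DifferentiableOn ℂ f (Metric.ball 0 1) ∧ hardyNorm n p f < ⊤

open Pool.Agent.Lib.MP7ebef4 in
private theorem sig_eq (n : ℕ) (hn : 0 < n) :
    sig n = volume (Metric.ball (0 : EuclideanSpace ℂ (Fin n)) 1) •
      (sigma n).map (Subtype.val) := by
  have : Nonempty (Fin n) := ⟨⟨0, hn⟩⟩
  have : Nontrivial (EuclideanSpace ℂ (Fin n)) := inferInstance
  have hd : (Module.finrank ℝ (EuclideanSpace ℂ (Fin n)) : ENNReal) ≠ 0 := by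
    have : 0 < Module.finrank ℝ (EuclideanSpace ℂ (Fin n)) := Module.finrank_pos
    exact_mod_cast this.ne'
  have hd' : (Module.finrank ℝ (EuclideanSpace ℂ (Fin n)) : ENNReal) ≠ ⊤ := ENNReal.natCast_ne_top _
  have hv : volume (Metric.ball (0 : EuclideanSpace ℂ (Fin n)) 1) ≠ 0 :=
    (Metric.isOpen_ball.measure_pos _ ⟨0, by simp⟩).ne'
  have hv' : volume (Metric.ball (0 : EuclideanSpace ℂ (Fin n)) 1) ≠ ⊤ := measure_ball_lt_top.ne
  ext A hA
  rw [Measure.smul_apply, Measure.map_apply measurable_subtype_coe hA, sigma,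
    Measure.smul_apply, Measure.toSphere_apply_univ,
    Measure.toSphere_apply' _ (measurable_subtype_coe hA)]
  unfold sig
  rw [Measure.map_apply measurable_toSph hA,
    Measure.restrict_apply (measurable_toSph hA)]
  have hset : Ioo (0 : ℝ) 1 • (Subtype.val '' (Subtype.val ⁻¹' A :
      Set (Metric.sphere (0 : EuclideanSpace ℂ (Fin n)) 1))) =
      ((fun z : EuclideanSpace ℂ (Fin n) => (‖z‖⁻¹ : ℝ) • z) ⁻¹' A ∩ B n) \ {0} := by
    ext z
    constructor
    · rintro ⟨r, hr, w, ⟨⟨w', hw'⟩, hwA, rfl⟩, rfl⟩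
      have hw1 : ‖w'‖ = 1 := by simpa using hw'
      have hwA' : w' ∈ A := hwA
      have hnorm : ‖r • w'‖ = r := by
        rw [norm_smul, Real.norm_of_nonneg hr.1.le, hw1, mul_one]
      refine ⟨⟨?_, ?_⟩, ?_⟩
      · simp only [mem_preimage]
        rw [hnorm, smul_smul, inv_mul_cancel₀ hr.1.ne', one_smul]
        exact hwA'
      · simp only [B, Metric.mem_ball, dist_zero_right, hnorm]
        exact hr.2
      · intro h
        rw [mem_singleton_iff] at h
        have h' : ‖r • w'‖ = 0 := by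
          have : (r • w' : EuclideanSpace ℂ (Fin n)) = 0 := h
          rw [this, norm_zero]
        rw [hnorm] at h'
        exact hr.1.ne' h'
    · rintro ⟨⟨h1, h2⟩, h3⟩
      have hz : z ≠ 0 := h3
      have hz' : 0 < ‖z‖ := norm_pos_iff.mpr hz
      have hz1 : ‖z‖ < 1 := by simpa [B] using h2
      refine ⟨‖z‖, ⟨hz', hz1⟩, (‖z‖⁻¹ : ℝ) • z, ⟨⟨(‖z‖⁻¹ : ℝ) • z, ?_⟩, h1, rfl⟩, ?_⟩
      · rw [mem_sphere_zero_iff_norm, norm_smul, norm_inv, norm_norm, inv_mul_cancel₀ hz'.ne']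
      · simp only [smul_smul]
        rw [mul_inv_cancel₀ hz'.ne', one_smul]
  rw [hset, measure_sdiff_null (measure_singleton _)]
  set V := volume (Metric.ball (0 : EuclideanSpace ℂ (Fin n)) 1)
  set D : ENNReal := (Module.finrank ℝ (EuclideanSpace ℂ (Fin n)) : ENNReal)
  simp only [smul_eq_mul]
  rw [← mul_assoc, ← mul_assoc, ENNReal.mul_inv (Or.inl hd) (Or.inl hd')]
  have e : V * (D⁻¹ * V⁻¹) * D = 1 := by
    calc V * (D⁻¹ * V⁻¹) * D = (V * V⁻¹) * (D⁻¹ * D) := by ring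
      _ = 1 := by rw [ENNReal.mul_inv_cancel hv hv', ENNReal.inv_mul_cancel hd hd', one_mul]
  rw [e, one_mul]

open Pool.Agent.Lib.MP7ebef4 in
private theorem lint (n : ℕ) (hn : 0 < n) (ψ : EuclideanSpace ℂ (Fin n) → ENNReal) :
    ∫⁻ ζ, ψ ζ ∂(sig n) = volume (Metric.ball (0 : EuclideanSpace ℂ (Fin n)) 1) *
      ∫⁻ ζ : Metric.sphere (0 : EuclideanSpace ℂ (Fin n)) 1, ψ ζ ∂(sigma n) := by
  rw [sig_eq n hn, lintegral_smul_measure, smul_eq_mul,
    (MeasurableEmbedding.subtype_coe Metric.isClosed_sphere.measurableSet).lintegral_map]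

open Pool.Agent.Lib.MP7ebef4 in
private theorem norm_one (n : ℕ) (hn : 0 < n) (f : EuclideanSpace ℂ (Fin n) → ℂ) :
    ⨆ r ∈ Ioo (0:ℝ) 1, ∫⁻ ζ, ‖f (r • ζ)‖ₑ ∂(sig n) =
      volume (Metric.ball (0 : EuclideanSpace ℂ (Fin n)) 1) * hardyNorm n 1 f := by
  unfold hardyNorm
  simp only [ENNReal.rpow_one, div_one, ENNReal.mul_iSup]
  exact iSup_congr fun r => iSup_congr fun hr => lint n hn (fun ζ => ‖f (r • ζ)‖ₑ)

open Pool.Agent.Lib.MP7ebef4 in
private theorem norm_two (n : ℕ) (hn : 0 < n) (f : EuclideanSpace ℂ (Fin n) → ℂ) :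
    H2 f = volume (Metric.ball (0 : EuclideanSpace ℂ (Fin n)) 1) * (hardyNorm n 2 f) ^ (2 : ℝ) := by
  unfold hardyNorm H2
  rw [← ENNReal.rpow_mul]
  norm_num
  simp only [ENNReal.mul_iSup]
  refine iSup_congr fun r => iSup_congr fun hr => ?_
  rw [lint n hn (fun ζ => ‖f (r • ζ)‖ₑ ^ (2:ℕ))]

private theorem zero_of (n : ℕ) (hn : 0 < n) (f : EuclideanSpace ℂ (Fin n) → ℂ)
    (hf : DifferentiableOn ℂ f (Metric.ball 0 1)) (h0 : hardyNorm n 1 f = 0) :
    ∀ z ∈ Metric.ball (0 : EuclideanSpace ℂ (Fin n)) 1, f z = 0 := by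
  have : Nonempty (Fin n) := ⟨⟨0, hn⟩⟩
  have : Nontrivial (EuclideanSpace ℂ (Fin n)) := inferInstance
  unfold hardyNorm at h0
  simp only [ENNReal.rpow_one, div_one, ENNReal.iSup_eq_zero] at h0
  have hc : ContinuousOn f (Metric.ball 0 1) := hf.continuousOn
  have hS : ∀ r ∈ Ioo (0:ℝ) 1, ∀ ζ : Metric.sphere (0 : EuclideanSpace ℂ (Fin n)) 1,
      f (r • (ζ : EuclideanSpace ℂ (Fin n))) = 0 := by
    intro r hr
    have h1 := h0 r hr
    have hcont : Continuous (fun ζ : Metric.sphere (0 : EuclideanSpace ℂ (Fin n)) 1 =>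
        f (r • (ζ : EuclideanSpace ℂ (Fin n)))) := by
      refine hc.comp_continuous (continuous_subtype_val.const_smul r) (fun ζ => ?_)
      have : ‖(ζ : EuclideanSpace ℂ (Fin n))‖ = 1 := by simpa using ζ.2
      rw [Metric.mem_ball, dist_zero_right, norm_smul, Real.norm_of_nonneg hr.1.le, this, mul_one]
      exact hr.2
    unfold sigma at h1
    rw [lintegral_smul_measure, smul_eq_mul, mul_eq_zero] at h1
    have h2 : ∫⁻ ζ : Metric.sphere (0 : EuclideanSpace ℂ (Fin n)) 1,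
        ‖f (r • (ζ : EuclideanSpace ℂ (Fin n)))‖ₑ
          ∂((volume : Measure (EuclideanSpace ℂ (Fin n))).toSphere) = 0 := by
      rcases h1 with h | h
      · exact absurd h (ENNReal.inv_ne_zero.mpr (measure_ne_top _ _))
      · exact h
    rw [lintegral_eq_zero_iff hcont.enorm.measurable] at h2
    have h3 : (fun ζ : Metric.sphere (0 : EuclideanSpace ℂ (Fin n)) 1 =>
        ‖f (r • (ζ : EuclideanSpace ℂ (Fin n)))‖ₑ) = fun _ => 0 :=
      (Continuous.ae_eq_iff_eq _ hcont.enorm continuous_const).mp h2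
    intro ζ
    have := congrFun h3 ζ
    simpa using this
  have hne : ∀ z ∈ Metric.ball (0 : EuclideanSpace ℂ (Fin n)) 1, z ≠ 0 → f z = 0 := by
    intro z hz hz0
    have hz' : 0 < ‖z‖ := norm_pos_iff.mpr hz0
    have hz1 : ‖z‖ < 1 := by simpa using hz
    have := hS ‖z‖ ⟨hz', hz1⟩ ⟨(‖z‖⁻¹ : ℝ) • z, by
      rw [mem_sphere_zero_iff_norm, norm_smul, norm_inv, norm_norm, inv_mul_cancel₀ hz'.ne']⟩
    simpa only [smul_smul, mul_inv_cancel₀ hz'.ne', one_smul] using this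
  intro z hz
  by_cases hz0 : z = 0
  · subst hz0
    have hat : ContinuousAt f 0 := hc.continuousAt (Metric.isOpen_ball.mem_nhds hz)
    have h1 : Tendsto f (𝓝[≠] (0 : EuclideanSpace ℂ (Fin n))) (𝓝 (f 0)) :=
      hat.tendsto.mono_left nhdsWithin_le_nhds
    have h2 : Tendsto f (𝓝[≠] (0 : EuclideanSpace ℂ (Fin n))) (𝓝 0) := by
      refine (tendsto_const_nhds (x := (0:ℂ))).congr' ?_
      have : Metric.ball (0 : EuclideanSpace ℂ (Fin n)) 1 ∈ 𝓝[≠] (0 : EuclideanSpace ℂ (Fin n)) :=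
        mem_nhdsWithin_of_mem_nhds (Metric.isOpen_ball.mem_nhds hz)
      filter_upwards [this, self_mem_nhdsWithin] with w hw hw0
      exact (hne w hw hw0).symm
    have : (𝓝[≠] (0 : EuclideanSpace ℂ (Fin n))).NeBot := by
      have h : (𝓝[≠] (0 : EuclideanSpace ℂ (Fin n))).NeBot :=
        Module.punctured_nhds_neBot ℂ (EuclideanSpace ℂ (Fin n)) 0
      exact h
    exact tendsto_nhds_unique h1 h2
  · exact hne z hz hz0

/-- **Every function of `H¹` of the ball is a finite sum of products of functions of `H²`**, with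
a number of products and a norm constant which depend only on the dimension. -/
theorem result (n : ℕ) (hn : 0 < n) :
    ∃ (N : ℕ) (C : ℝ≥0), ∀ f : EuclideanSpace ℂ (Fin n) → ℂ, InHardy n 1 f →
      ∃ g h : Fin N → EuclideanSpace ℂ (Fin n) → ℂ,
        (∀ i, InHardy n 2 (g i) ∧ InHardy n 2 (h i)) ∧
        (∀ z ∈ Metric.ball (0 : EuclideanSpace ℂ (Fin n)) 1, f z = ∑ i, g i z * h i z) ∧
        ∑ i, hardyNorm n 2 (g i) * hardyNorm n 2 (h i) ≤ C * hardyNorm n 1 f := by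
  obtain ⟨N, C, hC, hfac⟩ := Pool.Agent.Lib.MP7ebef4.factor_unif n hn
  set V := volume (Metric.ball (0 : EuclideanSpace ℂ (Fin n)) 1) with hV
  have hv : V ≠ 0 := (Metric.isOpen_ball.measure_pos _ ⟨0, by simp⟩).ne'
  have hv' : V ≠ ⊤ := measure_ball_lt_top.ne
  refine ⟨N, N * C.toNNReal, fun f hf => ?_⟩
  by_cases ha : hardyNorm n 1 f = 0
  · have hz := zero_of n hn f hf.1 ha
    have h00 : hardyNorm n 2 (fun _ => (0:ℂ)) = 0 := by
      unfold hardyNorm
      simp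
    refine ⟨fun _ _ => 0, fun _ _ => 0, fun i => ⟨⟨differentiableOn_const _, by rw [h00]; simp⟩,
      ⟨differentiableOn_const _, by rw [h00]; simp⟩⟩, fun z hz' => by simp [hz z hz'], ?_⟩
    simp [h00]
  · have hVa : V * hardyNorm n 1 f ≠ ⊤ := ENNReal.mul_ne_top hv' hf.2.ne
    have hm : 0 < (V * hardyNorm n 1 f).toReal :=
      ENNReal.toReal_pos (mul_ne_zero hv ha) hVa
    obtain ⟨G, H, hGH, hsum⟩ := hfac f hf.1 _ hm (by
      rw [ENNReal.ofReal_toReal hVa, norm_one n hn f])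
    have key : ∀ g : EuclideanSpace ℂ (Fin n) → ℂ,
        Pool.Agent.Lib.MP7ebef4.H2 g ≤ ENNReal.ofReal (C * (V * hardyNorm n 1 f).toReal) →
        hardyNorm n 2 g ≤ (ENNReal.ofReal C * hardyNorm n 1 f) ^ (1 / 2 : ℝ) := by
      intro g hg
      rw [norm_two n hn g, ENNReal.ofReal_mul hC.le, ENNReal.ofReal_toReal hVa] at hg
      have h1 : V * (hardyNorm n 2 g) ^ (2:ℝ) ≤ V * (ENNReal.ofReal C * hardyNorm n 1 f) := by
        calc _ ≤ _ := hg
          _ = _ := by ring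
      have h2 : (hardyNorm n 2 g) ^ (2:ℝ) ≤ ENNReal.ofReal C * hardyNorm n 1 f :=
        (ENNReal.mul_le_mul_iff_right hv hv').mp h1
      have h3 := ENNReal.rpow_le_rpow h2 (by norm_num : (0:ℝ) ≤ 1 / 2)
      rw [← ENNReal.rpow_mul] at h3
      norm_num at h3
      simpa using h3
    have hfin : (ENNReal.ofReal C * hardyNorm n 1 f) ^ (1 / 2 : ℝ) < ⊤ :=
      ENNReal.rpow_lt_top_of_nonneg (by norm_num)
        (ENNReal.mul_ne_top ENNReal.ofReal_ne_top hf.2.ne)
    refine ⟨G, H, fun i => ⟨⟨(hGH i).1, (key _ (hGH i).2.1).trans_lt hfin⟩,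
      ⟨(hGH i).2.2.1, (key _ (hGH i).2.2.2).trans_lt hfin⟩⟩, hsum, ?_⟩
    calc ∑ i, hardyNorm n 2 (G i) * hardyNorm n 2 (H i)
        ≤ ∑ _i : Fin N, (ENNReal.ofReal C * hardyNorm n 1 f) := by
          refine Finset.sum_le_sum fun i _ => ?_
          calc hardyNorm n 2 (G i) * hardyNorm n 2 (H i)
              ≤ (ENNReal.ofReal C * hardyNorm n 1 f) ^ (1 / 2 : ℝ) *
                (ENNReal.ofReal C * hardyNorm n 1 f) ^ (1 / 2 : ℝ) :=
                mul_le_mul' (key _ (hGH i).2.1) (key _ (hGH i).2.2.2)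
            _ = ENNReal.ofReal C * hardyNorm n 1 f := by
                rw [← ENNReal.rpow_add_of_nonneg _ _ (by norm_num) (by norm_num)]
                norm_num
      _ = ((N * C.toNNReal : ℝ≥0) : ENNReal) * hardyNorm n 1 f := by
          rw [Finset.sum_const, Finset.card_univ, Fintype.card_fin, nsmul_eq_mul]
          push_cast
          rw [mul_assoc]
          rfl

end Pool.Agent.Results.MP_7ebef4_an.UniformFactorization
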